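import Pool.Agent.helper14.XG.SpecA

set_option autoImplicit false

namespace Pool.Agent.XG

open Finset SimpleGraph Pool.Agent.XT

theorem CUG_nbX (a : XM) : ∃ b, RM a b := by
  rcases a with ⟨i, j⟩ | g | ⟨g, k⟩
  · refine ⟨Sum.inr ((false, i, j, false), ⟨(0, 2), by decide⟩), Or.inr ⟨_, _, rfl, Or.inr ?_⟩⟩
    rfl
  · exact ⟨Sum.inl (cg g), Or.inl ⟨g, rfl, rfl⟩⟩
  · fin_cases k
    · exact ⟨Sum.inr (g, ⟨(0, 0), by decide⟩), Or.inr ⟨_, _, rfl, Or.inl rfl⟩⟩
    · exact ⟨Sum.inr (g, ⟨(1, 0), by decide⟩), Or.inr ⟨_, _, rfl, Or.inl rfl⟩⟩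
    · exact ⟨Sum.inr (g, ⟨(0, 0), by decide⟩), Or.inr ⟨_, _, rfl, Or.inr rfl⟩⟩
    · exact ⟨Sum.inr (g, ⟨(0, 1), by decide⟩), Or.inr ⟨_, _, rfl, Or.inr rfl⟩⟩

theorem CUG_nbY (b : YM) : ∃ a, RM a b := by
  rcases b with ⟨side, i⟩ | ⟨g, p⟩
  · refine ⟨Sum.inr (Sum.inl (side, i, i, false)), Or.inl ⟨_, rfl, ?_⟩⟩
    cases side <;> rfl
  · exact ⟨uM g p.1.1, Or.inr ⟨g, p, rfl, Or.inl rfl⟩⟩

theorem CUG_copy {n : ℕ} (G : SimpleGraph (Fin n)) (f : XM ↪ Fin n) (g : YM ↪ Fin n)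
    (h : ∀ a b, RM a b → G.Adj (f a) (g b)) (hne : ∀ a b, f a ≠ g b) : GL.Gr RM ⊑ G := by
  refine ⟨⟨⟨Sum.elim f g, ?_⟩, ?_⟩⟩
  · intro a b hab
    rw [GL.Gr, SimpleGraph.fromRel_adj] at hab
    rcases hab.2 with ⟨x, y, rfl, rfl, hR⟩ | ⟨x, y, rfl, rfl, hR⟩
    · exact h x y hR
    · exact (h x y hR).symm
  · intro a b hab
    change Sum.elim f g a = Sum.elim f g b at hab
    rcases a with a | a <;> rcases b with b | b
    · exact congrArg Sum.inl (f.injective hab)
    · exact absurd hab (hne a b)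
    · exact absurd hab.symm (hne b a)
    · exact congrArg Sum.inr (g.injective hab)

theorem CUG_count (n : ℕ) (u v : Fin n) (huv : u ≠ v) :
    4 * ((Finset.univ : Finset (Finset (Fin n))).filter (fun S => u ∈ S ∧ v ∉ S)).card = 2 ^ n := by
  classical
  have h1 : ((Finset.univ : Finset (Finset (Fin n))).filter (fun S => u ∈ S ∧ v ∉ S)) =
      Finset.Icc {u} (Finset.univ.erase v) := by
    ext S
    simp only [Finset.mem_filter, Finset.mem_univ, true_and, Finset.mem_Icc,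
      Finset.singleton_subset_iff]
    constructor
    · rintro ⟨h, h'⟩
      exact ⟨h, fun x hx => Finset.mem_erase.mpr ⟨fun e => h' (e ▸ hx), Finset.mem_univ _⟩⟩
    · rintro ⟨h, h'⟩
      exact ⟨h, fun hv => (Finset.mem_erase.mp (h' hv)).1 rfl⟩
  have hsub : ({u} : Finset (Fin n)) ⊆ Finset.univ.erase v := by
    rw [Finset.singleton_subset_iff]
    exact Finset.mem_erase.mpr ⟨huv, Finset.mem_univ _⟩
  rw [h1, Finset.card_Icc_finset hsub, Finset.card_erase_of_mem (Finset.mem_univ _),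
    Finset.card_univ, Fintype.card_fin, Finset.card_singleton]
  have hn : 2 ≤ n := by
    by_contra hcon
    apply huv
    apply Fin.ext
    have := u.isLt
    have := v.isLt
    omega
  obtain ⟨m, rfl⟩ : ∃ m, n = m + 2 := ⟨n - 2, by omega⟩
  have : m + 2 - 1 - 1 = m := by omega
  rw [this, pow_add]
  ring

open Classical in
theorem CUG_exists (n : ℕ) (G : SimpleGraph (Fin n)) : ∃ S : Finset (Fin n),
    G.edgeSet.ncard ≤ 2 * ((Finset.univ : Finset (Fin n × Fin n)).filter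
        (fun x => (x.1 ∈ S ∧ x.2 ∉ S) ∧ G.Adj x.1 x.2)).card := by
  by_contra hcon
  push Not at hcon
  have he : G.edgeSet.ncard = G.edgeFinset.card := by
    rw [← coe_edgeFinset, Set.ncard_coe_finset]
  have hsum : 2 * ∑ S : Finset (Fin n), ((Finset.univ : Finset (Fin n × Fin n)).filter
      (fun x => (x.1 ∈ S ∧ x.2 ∉ S) ∧ G.Adj x.1 x.2)).card < 2 ^ n * G.edgeFinset.card := by
    calc 2 * ∑ S : Finset (Fin n), ((Finset.univ : Finset (Fin n × Fin n)).filter
          (fun x => (x.1 ∈ S ∧ x.2 ∉ S) ∧ G.Adj x.1 x.2)).card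
        = ∑ S : Finset (Fin n), 2 * ((Finset.univ : Finset (Fin n × Fin n)).filter
          (fun x => (x.1 ∈ S ∧ x.2 ∉ S) ∧ G.Adj x.1 x.2)).card := Finset.mul_sum _ _ _
      _ < ∑ _S : Finset (Fin n), G.edgeFinset.card := by
          apply Finset.sum_lt_sum_of_nonempty ⟨∅, Finset.mem_univ _⟩
          intro S _
          rw [← he]
          exact hcon S
      _ = 2 ^ n * G.edgeFinset.card := by
          rw [Finset.sum_const, Finset.card_univ, Fintype.card_finset, Fintype.card_fin,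
            smul_eq_mul]
  have hswap : ∑ S : Finset (Fin n), ((Finset.univ : Finset (Fin n × Fin n)).filter
      (fun x => (x.1 ∈ S ∧ x.2 ∉ S) ∧ G.Adj x.1 x.2)).card =
      ∑ x ∈ (Finset.univ : Finset (Fin n × Fin n)).filter (fun x => G.Adj x.1 x.2),
        ((Finset.univ : Finset (Finset (Fin n))).filter (fun S => x.1 ∈ S ∧ x.2 ∉ S)).card := by
    simp only [Finset.card_filter]
    rw [Finset.sum_comm, Finset.sum_filter]
    apply Finset.sum_congr rfl
    intro x _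
    by_cases hx : G.Adj x.1 x.2
    · simp [hx]
    · simp [hx]
  have h4 : 4 * ∑ x ∈ (Finset.univ : Finset (Fin n × Fin n)).filter (fun x => G.Adj x.1 x.2),
        ((Finset.univ : Finset (Finset (Fin n))).filter (fun S => x.1 ∈ S ∧ x.2 ∉ S)).card =
      2 * G.edgeFinset.card * 2 ^ n := by
    rw [Finset.mul_sum, Finset.sum_congr rfl (g := fun _ => 2 ^ n), Finset.sum_const, smul_eq_mul]
    · congr 1
      rw [two_mul_card_edgeFinset]
    · intro x hx
      rw [Finset.mem_filter] at hx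
      exact CUG_count n x.1 x.2 hx.2.ne
  rw [hswap] at hsum
  nlinarith [h4, hsum]

theorem CUG : CUG_stmt := by
  classical
  intro n G hM
  obtain ⟨S, hS⟩ := CUG_exists n G
  set B : FS n := (Finset.univ : Finset (Fin n × Fin n)).filter
    (fun x => (x.1 ∈ S ∧ x.2 ∉ S) ∧ G.Adj x.1 x.2) with hBd
  have hmem : ∀ p l, (p, l) ∈ B → p ∈ S ∧ l ∉ S ∧ G.Adj p l := by
    intro p l h
    rw [hBd, Finset.mem_filter] at h
    exact ⟨h.2.1.1, h.2.1.2, h.2.2⟩
  refine ⟨B, ⟨?_, ?_⟩, ?_⟩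
  · rintro ⟨f, g, hfg⟩
    apply hM
    have hf : ∀ a, f a ∈ S := by
      intro a
      obtain ⟨b, hb⟩ := CUG_nbX a
      exact (hmem _ _ (hfg a b hb)).1
    have hg : ∀ b, g b ∉ S := by
      intro b
      obtain ⟨a, ha⟩ := CUG_nbY b
      exact (hmem _ _ (hfg a b ha)).2.1
    exact CUG_copy G f g (fun a b hab => (hmem _ _ (hfg a b hab)).2.2)
      (fun a b h => hg b (h ▸ hf a))
  · rintro ⟨f, g, hfg⟩
    apply hM
    have hfg' : ∀ a b, RM a b → (g b, f a) ∈ B := by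
      intro a b hab
      have := hfg a b hab
      rw [sw, Finset.mem_filter] at this
      exact this.2
    have hf : ∀ a, f a ∉ S := by
      intro a
      obtain ⟨b, hb⟩ := CUG_nbX a
      exact (hmem _ _ (hfg' a b hb)).2.1
    have hg : ∀ b, g b ∈ S := by
      intro b
      obtain ⟨a, ha⟩ := CUG_nbY b
      exact (hmem _ _ (hfg' a b ha)).1
    exact CUG_copy G f g (fun a b hab => (hmem _ _ (hfg' a b hab)).2.2.symm)
      (fun a b h => hf a (h ▸ hg b))
  · exact hS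

end Pool.Agent.XG
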