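import Pool.Agent.helper14.XG.SpecA

set_option autoImplicit false

namespace Pool.Agent.XG

open Finset SimpleGraph Pool.Agent.XT

theorem HVG_fib {n : ℕ} (B : FS n) (H : Finset (Fin n)) :
    (B.filter (fun e => e.1 ∈ H)).card = ∑ p ∈ H, (dP B p).card := by
  have h0 := Finset.card_eq_sum_card_fiberwise (s := B.filter (fun e => e.1 ∈ H))
    (f := fun e : Fin n × Fin n => e.1) (t := H)
    (fun e he => (Finset.mem_filter.1 (Finset.mem_coe.1 he)).2)
  rw [h0]
  apply Finset.sum_congr rfl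
  intro p hp
  apply Finset.card_bij (fun e _ => e.2)
  · intro e he
    rw [Finset.mem_filter, Finset.mem_filter] at he
    rw [dP, Finset.mem_filter]
    refine ⟨Finset.mem_univ _, ?_⟩
    rw [← he.2]
    exact he.1.1
  · intro e he e' he' h
    rw [Finset.mem_filter] at he he'
    exact Prod.ext (he.2.trans he'.2.symm) h
  · intro l hl
    rw [dP, Finset.mem_filter] at hl
    exact ⟨(p, l), by rw [Finset.mem_filter, Finset.mem_filter]; exact ⟨⟨hl.2, hp⟩, rfl⟩, rfl⟩

theorem HVG (hBLG : BLG_stmt) (hSTG : STG_stmt) : HVG_stmt := by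
  intro n C B hn hC hAdm hf hB
  have hn0 : (0 : ℝ) < n := by exact_mod_cast hn
  have hC0 : (0 : ℝ) < C := by linarith
  set K : ℝ := 2 ^ 14 * C * (n : ℝ) ^ (8 / 25 : ℝ) with hK
  have hn4 : 0 < (n : ℝ) ^ (8 / 25 : ℝ) := Real.rpow_pos_of_pos hn0 _
  have hK0 : 0 < K := by positivity
  set H : Finset (Fin n) := Finset.univ.filter (fun p => K < ((dP B p).card : ℝ)) with hH
  have hset : B.filter (fun e => K < ((dP B e.1).card : ℝ)) = B.filter (fun e => e.1 ∈ H) := by
    apply Finset.filter_congr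
    intro e _
    rw [hH, Finset.mem_filter]
    exact ⟨fun h => ⟨Finset.mem_univ _, h⟩, fun h => h.2⟩
  have h17 : (n : ℝ) ^ (33 / 25 : ℝ) = n * (n : ℝ) ^ (8 / 25 : ℝ) := by
    have : (33 / 25 : ℝ) = 1 + 8 / 25 := by norm_num
    rw [this, Real.rpow_add hn0, Real.rpow_one]
  rw [hset]
  have hsum : (H.card : ℝ) * K ≤ ((B.filter (fun e => e.1 ∈ H)).card : ℝ) := by
    rw [HVG_fib, Nat.cast_sum, ← nsmul_eq_mul]
    apply Finset.card_nsmul_le_sum
    intro p hp
    rw [hH, Finset.mem_filter] at hp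
    exact hp.2.le
  have hle : ((B.filter (fun e => e.1 ∈ H)).card : ℝ) ≤ B.card := by
    exact_mod_cast Finset.card_le_card (Finset.filter_subset _ _)
  have hHn : (H.card : ℝ) ≤ n / 2 ^ 13 := by
    have h1 : (H.card : ℝ) * K ≤ 2 * C * (n * (n : ℝ) ^ (8 / 25 : ℝ)) := by
      rw [← h17]
      linarith
    have h2 : ((H.card : ℝ) * 2 ^ 13) * (2 * C * (n : ℝ) ^ (8 / 25 : ℝ)) ≤
        n * (2 * C * (n : ℝ) ^ (8 / 25 : ℝ)) := by
      rw [hK] at h1
      nlinarith
    rw [le_div_iff₀ (by positivity)]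
    exact le_of_mul_le_mul_right h2 (by positivity)
  rcases Nat.eq_zero_or_pos H.card with h0 | hpos
  · have h1 : H = ∅ := Finset.card_eq_zero.1 h0
    have h2 : (B.filter (fun e => e.1 ∈ H)).card = 0 := by
      rw [h1]
      simp
    rw [h2, Nat.cast_zero]
    positivity
  · have hlt : H.card < n := by
      have h1 : (H.card : ℝ) < n := by
        refine lt_of_le_of_lt hHn ?_
        rw [div_lt_iff₀ (by positivity)]
        nlinarith
      exact_mod_cast h1
    have h1 := hBLG n H.card B H (C * (H.card : ℝ) ^ (33 / 25 : ℝ)) hpos hlt.le le_rfl hAdm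
      (hf H.card hlt)
    have h2 := hSTG n H.card hpos hHn
    calc ((B.filter (fun e => e.1 ∈ H)).card : ℝ)
        ≤ ((n : ℝ) / H.card + 1) * (C * (H.card : ℝ) ^ (33 / 25 : ℝ)) := h1
      _ = C * (((n : ℝ) / H.card + 1) * (H.card : ℝ) ^ (33 / 25 : ℝ)) := by ring
      _ ≤ C * ((n : ℝ) ^ (33 / 25 : ℝ) / 8) := mul_le_mul_of_nonneg_left h2 hC0.le
      _ = C * (n : ℝ) ^ (33 / 25 : ℝ) / 8 := by ring

end Pool.Agent.XG
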