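import Pool.Agent.helper14.XG.SpecA

set_option autoImplicit false

namespace Pool.Agent.XG

open Finset SimpleGraph Pool.Agent.XT

theorem PRG (hONE : ONE_stmt) (hCLH : CLH_stmt) (hSWH : SWH_stmt) (hDGX : DGX_stmt)
    (hGFT : GFT_stmt) (hFNM : FNM_stmt) (hDUA : DUA_stmt) (hMMO : MMO_stmt) : PRG_stmt := by
  classical
  intro κ hκ
  obtain ⟨C1, h1⟩ := hONE κ hκ
  obtain ⟨C3, h3⟩ := hONE (κ / 16) (by positivity)
  refine ⟨max C1 C3, fun n D B hH hC hDn => ?_⟩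
  by_contra hcon
  rw [not_or] at hcon
  obtain ⟨hM, hMs⟩ := hcon
  have hn4 : (0 : ℝ) ≤ (n : ℝ) ^ 8 := by positivity
  have hnpos : (0 : ℝ) < n := by exact_mod_cast hH.n0
  have hD0 : (0 : ℝ) < D := by exact_mod_cast hH.d0
  have k1 : C1 * (n : ℝ) ^ 8 ≤ (D : ℝ) ^ 25 :=
    (mul_le_mul_of_nonneg_right (le_max_left _ _) hn4).trans hC
  have k3 : C3 * (n : ℝ) ^ 8 ≤ (D : ℝ) ^ 25 :=
    (mul_le_mul_of_nonneg_right (le_max_right _ _) hn4).trans hC
  have hGF : κ / 4 * n * D ≤ ((GF B).card : ℝ) := (h1 n D B hH k1 hDn).resolve_left hM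
  obtain ⟨hGB, hGT⟩ := hGFT n B
  obtain ⟨_, _, _, _, _, _, hsub, _⟩ := hDUA n B
  obtain ⟨_, _, hg3, hg4⟩ := hsub (GF B) hGB
  obtain ⟨B', hB', hHost⟩ := hCLH (κ / 16) n D (GF B) (by positivity) hH.n0 hH.d0
    (fun p => (Finset.card_le_card (hg3 p)).trans (hH.pu p))
    (fun l => (Finset.card_le_card (hg4 l)).trans (hH.lu l))
    (by
      have : 4 * (κ / 16) * (n : ℝ) * D = κ / 4 * n * D := by ring
      rw [this]
      exact hGF)
  obtain ⟨hs1, _, _, _⟩ := hsub B' (hB'.trans hGB)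
  have hHost' : Hst (κ / 16) D (sw B') := hSWH _ _ _ _ hHost
  have hMs' : ¬ HasM (sw B') := fun h =>
    hMs (hMMO n n (sw B') (sw B) (Function.Embedding.refl _) (Function.Embedding.refl _)
      (fun p l hpl => hs1 hpl) h)
  have hgood' : κ / 16 / 4 * n * D ≤ ((GF (sw B')).card : ℝ) :=
    (h3 n D (sw B') hHost' k3 hDn).resolve_left hMs'
  have hpos : 0 < (GF (sw B')).card := by
    have h5 : (0 : ℝ) < κ / 16 / 4 * n * D := by positivity
    exact_mod_cast h5.trans_le hgood'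
  obtain ⟨e, he⟩ := Finset.card_pos.1 hpos
  unfold GF at he
  rw [mem_filter] at he
  have h6 : 0 < (Finset.univ.filter (fun y => Good (sw B') e.1 e.2 y)).card := by
    have := he.2
    omega
  obtain ⟨y, hy⟩ := Finset.card_pos.1 h6
  have he' : Good (sw B') e.1 e.2 y := (mem_filter.1 hy).2
  obtain ⟨a, b, X, hab, hX, hinc⟩ := hDGX n B' e.1 e.2 y he'
  exact hM (hFNM n B a b X hab hX (fun i j => hGT _ _ (hB' (hinc i j).1))
    (fun i j => hGT _ _ (hB' (hinc i j).2)))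

end Pool.Agent.XG
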