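import Pool.Agent.helper14.XG.Spec

set_option autoImplicit false

namespace Pool.Agent.XG

open Finset
open Pool.Agent.XT

theorem NW4_step {α β γ : Type*} [DecidableEq β] [DecidableEq γ] (Z : Finset α) (f : α → β)
    (g : α → γ) (T : β → Finset γ) (m k : ℕ) (hm : (Z.image f).card ≤ m)
    (hg : ∀ z ∈ Z, g z ∈ T (f z)) (hk : ∀ z ∈ Z, (T (f z)).card ≤ k) :
    (Z.image (fun z => (f z, g z))).card ≤ m * k := by
  have hsub : Z.image (fun z => (f z, g z)) ⊆
      (Z.image f).biUnion (fun b => (T b).image (fun c => (b, c))) := by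
    intro w hw
    obtain ⟨z, hz, rfl⟩ := Finset.mem_image.1 hw
    exact Finset.mem_biUnion.2 ⟨f z, Finset.mem_image_of_mem f hz,
      Finset.mem_image_of_mem _ (hg z hz)⟩
  refine (Finset.card_le_card hsub).trans ?_
  refine (Finset.card_biUnion_le_card_mul _ _ k ?_).trans (Nat.mul_le_mul_right _ hm)
  intro b hb
  obtain ⟨z, hz, rfl⟩ := Finset.mem_image.1 hb
  exact Finset.card_image_le.trans (hk z hz)

theorem NW4_pairs {n D : ℕ} {B : FS n} {Nr : Fin n → Fin n → Prop} (hD : Dg B D) {α : Type*}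
    (Z : Finset α) (a y : α → Fin n) (h : ∀ z ∈ Z, Lt B Nr (a z) (y z)) :
    (Z.image (fun z => (a z, y z))).card ≤ n * D ^ 2 := by
  refine NW4_step Z a y (fun a => (dP B a).biUnion (dL B)) n (D ^ 2) ?_ ?_ ?_
  · exact (Finset.card_le_univ _).trans (by rw [Fintype.card_fin])
  · intro z hz
    obtain ⟨l, hl⟩ := (h z hz).2.2.1
    rw [com, Finset.mem_filter] at hl
    exact Finset.mem_biUnion.2 ⟨l, by rw [dP, Finset.mem_filter]; exact ⟨Finset.mem_univ _, hl.2.1⟩,
      by rw [dL, Finset.mem_filter]; exact ⟨Finset.mem_univ _, hl.2.2⟩⟩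
  · intro z _
    refine (Finset.card_biUnion_le_card_mul _ _ D (fun l _ => hD.lu l)).trans ?_
    rw [sq]
    exact Nat.mul_le_mul_right _ (hD.pu _)

theorem NW4_F1 {n : ℕ} {B : FS n} {Nr : Fin n → Fin n → Prop} {F : Fin n → Fin n → Finset (VV n)}
    (hS : Sy B Nr F) (x y : Fin n) :
    (Finset.univ.filter (fun b : Fin n => (Sum.inl b : VV n) ∈ F x y)).card ≤ 6000 := by
  refine le_trans ?_ (hS.fc x y)
  refine Finset.card_le_card_of_injOn (fun b => (Sum.inl b : VV n)) ?_ ?_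
  · intro b hb
    exact (Finset.mem_filter.1 hb).2
  · intro b _ b' _ h
    exact Sum.inl_injective h

theorem NW4_F2 {n : ℕ} {B : FS n} {Nr : Fin n → Fin n → Prop} {F : Fin n → Fin n → Finset (VV n)}
    (hS : Sy B Nr F) (x y : Fin n) :
    (Finset.univ.filter (fun b : Fin n => (Sum.inr b : VV n) ∈ F x y)).card ≤ 6000 := by
  refine le_trans ?_ (hS.fc x y)
  refine Finset.card_le_card_of_injOn (fun b => (Sum.inr b : VV n)) ?_ ?_
  · intro b hb
    exact (Finset.mem_filter.1 hb).2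
  · intro b _ b' _ h
    exact Sum.inr_injective h

theorem NW4 : NW4_stmt := by
  classical
  intro n D B Nr F hS hD hD0 Z hZ
  set Z1 := Z.filter (fun z => (Sum.inl z.2.2.2 : VV n) ∈ F z.2.2.1 z.2.1) with hZ1
  set Z2 := Z.filter (fun z => ¬ (Sum.inl z.2.2.2 : VV n) ∈ F z.2.2.1 z.2.1) with hZ2
  have hsplit : Z.card = Z1.card + Z2.card := by
    rw [hZ1, hZ2, Finset.card_filter_add_card_filter_not]
  have hlt : ∀ z ∈ Z, Lt B Nr z.2.2.1 z.2.1 := by
    intro z hz
    have := (hZ z hz).1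
    rw [NS, Finset.mem_filter] at this
    exact this.2.2.2
  have hl : ∀ z ∈ Z, z.1 ∈ com B z.2.2.1 z.2.2.2 := by
    intro z hz
    have h1 := (hZ z hz).1
    have h2 := (hZ z hz).2.1
    rw [NS, Finset.mem_filter] at h1 h2
    rw [com, Finset.mem_filter]
    exact ⟨Finset.mem_univ _, h1.2.2.1, h2.2.2.1⟩
  have hc : ∀ z ∈ Z, (com B z.2.2.1 z.2.2.2).card ≤ KK := fun z hz => (hZ z hz).2.2.1.2.2.2
  have c1 : Z1.card ≤ n * D ^ 2 * 6000 * KK := by
    have s1 : (Z1.image (fun z => (z.2.2.1, z.2.1))).card ≤ n * D ^ 2 :=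
      NW4_pairs hD Z1 _ _ (fun z hz => hlt z (Finset.mem_filter.1 hz).1)
    have s2 : (Z1.image (fun z => ((z.2.2.1, z.2.1), z.2.2.2))).card ≤ n * D ^ 2 * 6000 :=
      NW4_step Z1 (fun z => (z.2.2.1, z.2.1)) (fun z => z.2.2.2)
        (fun e => Finset.univ.filter (fun b : Fin n => (Sum.inl b : VV n) ∈ F e.1 e.2)) _ _ s1
        (fun z hz => Finset.mem_filter.2 ⟨Finset.mem_univ _, (Finset.mem_filter.1 hz).2⟩)
        (fun z _ => NW4_F1 hS _ _)
    have s3 : (Z1.image (fun z => (((z.2.2.1, z.2.1), z.2.2.2), z.1))).card ≤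
        n * D ^ 2 * 6000 * KK :=
      NW4_step Z1 (fun z => ((z.2.2.1, z.2.1), z.2.2.2)) (fun z => z.1)
        (fun e => com B e.1.1 e.2) _ _ s2 (fun z hz => hl z (Finset.mem_filter.1 hz).1)
        (fun z hz => hc z (Finset.mem_filter.1 hz).1)
    rw [Finset.card_image_of_injective] at s3
    · exact s3
    · rintro ⟨l, y, a, b⟩ ⟨l', y', a', b'⟩ h
      simp only [Prod.mk.injEq] at h
      obtain ⟨⟨⟨rfl, rfl⟩, rfl⟩, rfl⟩ := h
      rfl
  have c2 : Z2.card ≤ n * D ^ 2 * 6000 * D * KK := by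
    have hex : ∀ z : Fin n × Fin n × Fin n × Fin n, ∃ m : Fin n, z ∈ Z2 →
        (m ∈ com B z.2.2.2 z.2.1 ∧ (Sum.inr m : VV n) ∈ F z.2.2.1 z.2.1) := by
      intro z
      by_cases hz : z ∈ Z2
      · obtain ⟨hz1, hz2⟩ := Finset.mem_filter.1 hz
        rcases (hZ z hz1).2.2.2 with h | ⟨m, h1, h2⟩
        · exact absurd h hz2
        · exact ⟨m, fun _ => ⟨h1, h2⟩⟩
      · exact ⟨z.1, fun h => absurd h hz⟩
    choose m hm using hex
    have s1 : (Z2.image (fun z => (z.2.2.1, z.2.1))).card ≤ n * D ^ 2 :=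
      NW4_pairs hD Z2 _ _ (fun z hz => hlt z (Finset.mem_filter.1 hz).1)
    have s2 : (Z2.image (fun z => ((z.2.2.1, z.2.1), m z))).card ≤ n * D ^ 2 * 6000 :=
      NW4_step Z2 (fun z => (z.2.2.1, z.2.1)) (fun z => m z)
        (fun e => Finset.univ.filter (fun b : Fin n => (Sum.inr b : VV n) ∈ F e.1 e.2)) _ _ s1
        (fun z hz => Finset.mem_filter.2 ⟨Finset.mem_univ _, (hm z hz).2⟩)
        (fun z _ => NW4_F2 hS _ _)
    have s3 : (Z2.image (fun z => (((z.2.2.1, z.2.1), m z), z.2.2.2))).card ≤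
        n * D ^ 2 * 6000 * D :=
      NW4_step Z2 (fun z => ((z.2.2.1, z.2.1), m z)) (fun z => z.2.2.2)
        (fun e => dL B e.2) _ _ s2
        (fun z hz => by
          have := (hm z hz).1
          rw [com, Finset.mem_filter] at this
          rw [dL, Finset.mem_filter]
          exact ⟨Finset.mem_univ _, this.2.1⟩)
        (fun z _ => hD.lu _)
    have s4 : (Z2.image (fun z => ((((z.2.2.1, z.2.1), m z), z.2.2.2), z.1))).card ≤
        n * D ^ 2 * 6000 * D * KK :=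
      NW4_step Z2 (fun z => (((z.2.2.1, z.2.1), m z), z.2.2.2)) (fun z => z.1)
        (fun e => com B e.1.1.1 e.2) _ _ s3 (fun z hz => hl z (Finset.mem_filter.1 hz).1)
        (fun z hz => hc z (Finset.mem_filter.1 hz).1)
    rw [Finset.card_image_of_injective] at s4
    · exact s4
    · rintro ⟨l, y, a, b⟩ ⟨l', y', a', b'⟩ h
      simp only [Prod.mk.injEq] at h
      obtain ⟨⟨⟨⟨rfl, rfl⟩, -⟩, rfl⟩, rfl⟩ := h
      rfl
  rw [hsplit]
  have h1 : n * D ^ 2 * 6000 * KK ≤ n * D ^ 2 * 6000 * D * KK := by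
    apply Nat.mul_le_mul_right
    exact Nat.le_mul_of_pos_right _ hD0
  calc Z1.card + Z2.card ≤ n * D ^ 2 * 6000 * D * KK + n * D ^ 2 * 6000 * D * KK :=
        Nat.add_le_add (c1.trans h1) c2
    _ = 12000 * KK * n * D ^ 3 := by ring

end Pool.Agent.XG
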