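import Pool.Agent.helper14.XG.Spec

set_option autoImplicit false

namespace Pool.Agent.XG

open Finset
open Pool.Agent.XT

theorem P4A_step {α β γ : Type*} [DecidableEq β] [DecidableEq γ] (Z : Finset α) (f : α → β)
    (g : α → γ) (T : β → Finset γ) (m k : ℕ) (hm : (Z.image f).card ≤ m)
    (hg : ∀ z ∈ Z, g z ∈ T (f z)) (hk : ∀ z ∈ Z, (T (f z)).card ≤ k) :
    (Z.image (fun z => (f z, g z))).card ≤ m * k := by
  have hsub : Z.image (fun z => (f z, g z)) ⊆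
      (Z.image f).biUnion (fun b => (T b).image (fun c => (b, c))) := by
    intro w hw
    obtain ⟨z, hz, rfl⟩ := Finset.mem_image.1 hw
    exact Finset.mem_biUnion.2 ⟨f z, Finset.mem_image_of_mem f hz,
      Finset.mem_image_of_mem _ (hg z hz)⟩
  refine (Finset.card_le_card hsub).trans ?_
  refine (Finset.card_biUnion_le_card_mul _ _ k ?_).trans (Nat.mul_le_mul_right _ hm)
  intro b hb
  obtain ⟨z, hz, rfl⟩ := Finset.mem_image.1 hb
  exact Finset.card_image_le.trans (hk z hz)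

theorem P4A_F1 {n : ℕ} {B : FS n} {Nr : Fin n → Fin n → Prop} {F : Fin n → Fin n → Finset (VV n)}
    (hS : Sy B Nr F) (x y : Fin n) :
    (Finset.univ.filter (fun b : Fin n => (Sum.inl b : VV n) ∈ F x y)).card ≤ 6000 := by
  refine le_trans ?_ (hS.fc x y)
  refine Finset.card_le_card_of_injOn (fun b => (Sum.inl b : VV n)) ?_ ?_
  · intro b hb
    exact (Finset.mem_filter.1 hb).2
  · intro b _ b' _ h
    exact Sum.inl_injective h

theorem P4A_F2 {n : ℕ} {B : FS n} {Nr : Fin n → Fin n → Prop} {F : Fin n → Fin n → Finset (VV n)}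
    (hS : Sy B Nr F) (x y : Fin n) :
    (Finset.univ.filter (fun b : Fin n => (Sum.inr b : VV n) ∈ F x y)).card ≤ 6000 := by
  refine le_trans ?_ (hS.fc x y)
  refine Finset.card_le_card_of_injOn (fun b => (Sum.inr b : VV n)) ?_ ?_
  · intro b hb
    exact (Finset.mem_filter.1 hb).2
  · intro b _ b' _ h
    exact Sum.inr_injective h

/-- 5-tuples -/
abbrev P4A_T (n : ℕ) := Fin n × Fin n × Fin n × Fin n × Fin n

/-- base conditions -/
def P4A_b {n : ℕ} (B : FS n) (Nr : Fin n → Fin n → Prop) (z : P4A_T n) : Prop :=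
  (z.1, z.2.1) ∈ B ∧ (z.2.2.1, z.2.1) ∈ B ∧ (z.2.2.1, z.2.2.2.1) ∈ B ∧
    (z.2.2.2.2, z.2.2.2.1) ∈ B ∧ Lt B Nr z.1 z.2.2.1 ∧ Lt B Nr z.2.2.1 z.2.2.2.2

theorem P4A_xla {n D : ℕ} {B : FS n} {Nr : Fin n → Fin n → Prop} (hD : Dg B D)
    (Z : Finset (P4A_T n)) (h : ∀ z ∈ Z, P4A_b B Nr z) :
    (Z.image (fun z => ((z.2.2.1, z.2.1), z.1))).card ≤ n * D * D := by
  classical
  have s0 : (Z.image (fun z => z.2.2.1)).card ≤ n :=
    (Finset.card_le_univ _).trans (by rw [Fintype.card_fin])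
  have s1 : (Z.image (fun z => (z.2.2.1, z.2.1))).card ≤ n * D :=
    P4A_step Z (fun z => z.2.2.1) (fun z => z.2.1) (fun x => dP B x) n D s0
      (fun z hz => by rw [dP, Finset.mem_filter]; exact ⟨Finset.mem_univ _, (h z hz).2.1⟩)
      (fun z _ => hD.pu _)
  exact P4A_step Z (fun z => (z.2.2.1, z.2.1)) (fun z => z.1) (fun e => dL B e.2) _ D s1
      (fun z hz => by rw [dL, Finset.mem_filter]; exact ⟨Finset.mem_univ _, (h z hz).1⟩)
      (fun z _ => hD.lu _)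

theorem P4A_1 {n D : ℕ} {B : FS n} {Nr : Fin n → Fin n → Prop} (hD : Dg B D)
    (Z : Finset (P4A_T n)) (h : ∀ z ∈ Z, P4A_b B Nr z ∧ (z.2.2.2.2, z.2.1) ∈ B) :
    Z.card ≤ n * D * D * D * KK := by
  classical
  have s2 := P4A_xla hD Z (fun z hz => (h z hz).1)
  have s3 : (Z.image (fun z => (((z.2.2.1, z.2.1), z.1), z.2.2.2.2))).card ≤ n * D * D * D :=
    P4A_step Z (fun z => ((z.2.2.1, z.2.1), z.1)) (fun z => z.2.2.2.2) (fun e => dL B e.1.2) _ D s2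
      (fun z hz => by rw [dL, Finset.mem_filter]; exact ⟨Finset.mem_univ _, (h z hz).2⟩)
      (fun z _ => hD.lu _)
  have s4 : (Z.image (fun z => ((((z.2.2.1, z.2.1), z.1), z.2.2.2.2), z.2.2.2.1))).card ≤
      n * D * D * D * KK :=
    P4A_step Z (fun z => (((z.2.2.1, z.2.1), z.1), z.2.2.2.2)) (fun z => z.2.2.2.1)
      (fun e => com B e.1.1.1 e.2) _ KK s3
      (fun z hz => by
        rw [com, Finset.mem_filter]
        exact ⟨Finset.mem_univ _, (h z hz).1.2.2.1, (h z hz).1.2.2.2.1⟩)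
      (fun z hz => (h z hz).1.2.2.2.2.2.2.2.2)
  rw [Finset.card_image_of_injective] at s4
  · exact s4
  · rintro ⟨a, l, x, m, b⟩ ⟨a', l', x', m', b'⟩ e
    simp only [Prod.mk.injEq] at e
    obtain ⟨⟨⟨⟨rfl, rfl⟩, rfl⟩, rfl⟩, rfl⟩ := e
    rfl

theorem P4A_3 {n D : ℕ} {B : FS n} {Nr : Fin n → Fin n → Prop}
    {F : Fin n → Fin n → Finset (VV n)} (hS : Sy B Nr F) (hD : Dg B D)
    (Z : Finset (P4A_T n))
    (h : ∀ z ∈ Z, P4A_b B Nr z ∧ (Sum.inl z.2.2.2.2 : VV n) ∈ F z.1 z.2.2.1) :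
    Z.card ≤ n * D * D * 6000 * KK := by
  classical
  have s2 := P4A_xla hD Z (fun z hz => (h z hz).1)
  have s3 : (Z.image (fun z => (((z.2.2.1, z.2.1), z.1), z.2.2.2.2))).card ≤ n * D * D * 6000 :=
    P4A_step Z (fun z => ((z.2.2.1, z.2.1), z.1)) (fun z => z.2.2.2.2)
      (fun e => Finset.univ.filter (fun b : Fin n => (Sum.inl b : VV n) ∈ F e.2 e.1.1)) _ 6000 s2
      (fun z hz => Finset.mem_filter.2 ⟨Finset.mem_univ _, (h z hz).2⟩)
      (fun z _ => P4A_F1 hS _ _)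
  have s4 : (Z.image (fun z => ((((z.2.2.1, z.2.1), z.1), z.2.2.2.2), z.2.2.2.1))).card ≤
      n * D * D * 6000 * KK :=
    P4A_step Z (fun z => (((z.2.2.1, z.2.1), z.1), z.2.2.2.2)) (fun z => z.2.2.2.1)
      (fun e => com B e.1.1.1 e.2) _ KK s3
      (fun z hz => by
        rw [com, Finset.mem_filter]
        exact ⟨Finset.mem_univ _, (h z hz).1.2.2.1, (h z hz).1.2.2.2.1⟩)
      (fun z hz => (h z hz).1.2.2.2.2.2.2.2.2)
  rw [Finset.card_image_of_injective] at s4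
  · exact s4
  · rintro ⟨a, l, x, m, b⟩ ⟨a', l', x', m', b'⟩ e
    simp only [Prod.mk.injEq] at e
    obtain ⟨⟨⟨⟨rfl, rfl⟩, rfl⟩, rfl⟩, rfl⟩ := e
    rfl

theorem P4A_4 {n D : ℕ} {B : FS n} {Nr : Fin n → Fin n → Prop}
    {F : Fin n → Fin n → Finset (VV n)} (hS : Sy B Nr F) (hD : Dg B D)
    (Z : Finset (P4A_T n))
    (h : ∀ z ∈ Z, P4A_b B Nr z ∧ (Sum.inr z.2.2.2.1 : VV n) ∈ F z.1 z.2.2.1) :
    Z.card ≤ n * D * D * 6000 * D := by
  classical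
  have s2 := P4A_xla hD Z (fun z hz => (h z hz).1)
  have s3 : (Z.image (fun z => (((z.2.2.1, z.2.1), z.1), z.2.2.2.1))).card ≤ n * D * D * 6000 :=
    P4A_step Z (fun z => ((z.2.2.1, z.2.1), z.1)) (fun z => z.2.2.2.1)
      (fun e => Finset.univ.filter (fun b : Fin n => (Sum.inr b : VV n) ∈ F e.2 e.1.1)) _ 6000 s2
      (fun z hz => Finset.mem_filter.2 ⟨Finset.mem_univ _, (h z hz).2⟩)
      (fun z _ => P4A_F2 hS _ _)
  have s4 : (Z.image (fun z => ((((z.2.2.1, z.2.1), z.1), z.2.2.2.1), z.2.2.2.2))).card ≤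
      n * D * D * 6000 * D :=
    P4A_step Z (fun z => (((z.2.2.1, z.2.1), z.1), z.2.2.2.1)) (fun z => z.2.2.2.2)
      (fun e => dL B e.2) _ D s3
      (fun z hz => by
        rw [dL, Finset.mem_filter]
        exact ⟨Finset.mem_univ _, (h z hz).1.2.2.2.1⟩)
      (fun z _ => hD.lu _)
  rw [Finset.card_image_of_injective] at s4
  · exact s4
  · rintro ⟨a, l, x, m, b⟩ ⟨a', l', x', m', b'⟩ e
    simp only [Prod.mk.injEq] at e
    obtain ⟨⟨⟨⟨rfl, rfl⟩, rfl⟩, rfl⟩, rfl⟩ := e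
    rfl

theorem P4A_2 {n D : ℕ} {B : FS n} {Nr : Fin n → Fin n → Prop} (hD : Dg B D) (t : ℝ)
    (ht : 1 ≤ t) (Z : Finset (P4A_T n))
    (h : ∀ z ∈ Z, P4A_b B Nr z ∧ t < (nn B Nr z.2.1 z.2.2.2.2 : ℝ)) :
    (Z.card : ℝ) ≤ KK * D * QQ B Nr / t := by
  classical
  have ht0 : 0 < t := by linarith
  have hb : ∀ l b, 0 < nn B Nr l b → (b, l) ∉ B := by
    intro l b hpos hcon
    rw [nn, Finset.card_pos] at hpos
    obtain ⟨x, hx⟩ := hpos
    rw [NS, Finset.mem_filter] at hx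
    exact hx.2.1 hcon
  have hfib : Z.card = ∑ e ∈ (Finset.univ : Finset (Fin n × Fin n)),
      (Z.filter (fun z => (z.2.1, z.2.2.2.2) = e)).card :=
    Finset.card_eq_sum_card_fiberwise (fun z _ => Finset.mem_univ _)
  have hb2 : ∀ e ∈ (Finset.univ : Finset (Fin n × Fin n)),
      ((Z.filter (fun z => (z.2.1, z.2.2.2.2) = e)).card : ℝ) ≤
        KK * D * (nn B Nr e.1 e.2 : ℝ) ^ 2 / t := by
    intro e _
    set Y := Z.filter (fun z => (z.2.1, z.2.2.2.2) = e) with hY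
    rcases Finset.eq_empty_or_nonempty Y with hE | ⟨z0, hz0⟩
    · rw [hE, Finset.card_empty]
      push_cast
      positivity
    have hYz : ∀ z ∈ Y, z ∈ Z ∧ z.2.1 = e.1 ∧ z.2.2.2.2 = e.2 := by
      intro z hz
      obtain ⟨h1, h2⟩ := Finset.mem_filter.1 hz
      have h3 : z.2.1 = e.1 := by rw [← h2]
      have h4 : z.2.2.2.2 = e.2 := by rw [← h2]
      exact ⟨h1, h3, h4⟩
    have hnt : t < (nn B Nr e.1 e.2 : ℝ) := by
      obtain ⟨h1, h2, h3⟩ := hYz z0 hz0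
      rw [← h2, ← h3]
      exact (h z0 h1).2
    have hnpos : 0 < nn B Nr e.1 e.2 := by
      have : (0 : ℝ) < (nn B Nr e.1 e.2 : ℝ) := lt_trans ht0 hnt
      exact_mod_cast this
    have s0 : (Y.image (fun z => z.2.2.1)).card ≤ nn B Nr e.1 e.2 := by
      rw [nn]
      apply Finset.card_le_card
      intro x hx
      obtain ⟨z, hz, rfl⟩ := Finset.mem_image.1 hx
      obtain ⟨h1, h2, h3⟩ := hYz z hz
      rw [NS, Finset.mem_filter, ← h2, ← h3]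
      refine ⟨Finset.mem_univ _, ?_, (h z h1).1.2.1, (h z h1).1.2.2.2.2.2⟩
      rw [h2, h3]
      exact hb _ _ hnpos
    have s1 : (Y.image (fun z => (z.2.2.1, z.2.2.2.1))).card ≤ nn B Nr e.1 e.2 * KK :=
      P4A_step Y (fun z => z.2.2.1) (fun z => z.2.2.2.1) (fun x => com B x e.2) _ KK s0
        (fun z hz => by
          obtain ⟨h1, h2, h3⟩ := hYz z hz
          rw [com, Finset.mem_filter, ← h3]
          exact ⟨Finset.mem_univ _, (h z h1).1.2.2.1, (h z h1).1.2.2.2.1⟩)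
        (fun z hz => by
          obtain ⟨h1, h2, h3⟩ := hYz z hz
          rw [← h3]
          exact (h z h1).1.2.2.2.2.2.2.2.2)
    have s2 : (Y.image (fun z => ((z.2.2.1, z.2.2.2.1), z.1))).card ≤
        nn B Nr e.1 e.2 * KK * D :=
      P4A_step Y (fun z => (z.2.2.1, z.2.2.2.1)) (fun z => z.1) (fun _ => dL B e.1) _ D s1
        (fun z hz => by
          obtain ⟨h1, h2, h3⟩ := hYz z hz
          rw [dL, Finset.mem_filter, ← h2]
          exact ⟨Finset.mem_univ _, (h z h1).1.1⟩)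
        (fun z _ => hD.lu _)
    rw [Finset.card_image_of_injOn] at s2
    · have s3 : (Y.card : ℝ) ≤ (nn B Nr e.1 e.2 : ℝ) * KK * D := by exact_mod_cast s2
      refine s3.trans ?_
      rw [le_div_iff₀ ht0]
      have h4 : (nn B Nr e.1 e.2 : ℝ) * t ≤ (nn B Nr e.1 e.2 : ℝ) ^ 2 := by
        rw [sq]
        exact mul_le_mul_of_nonneg_left hnt.le (Nat.cast_nonneg _)
      calc (nn B Nr e.1 e.2 : ℝ) * KK * D * t = KK * D * ((nn B Nr e.1 e.2 : ℝ) * t) := by ring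
        _ ≤ KK * D * (nn B Nr e.1 e.2 : ℝ) ^ 2 :=
          mul_le_mul_of_nonneg_left h4 (by positivity)
    · intro z hz z' hz' he
      obtain ⟨h1, h2, h3⟩ := hYz z hz
      obtain ⟨h1', h2', h3'⟩ := hYz z' hz'
      simp only [Prod.mk.injEq] at he
      obtain ⟨⟨e1, e2⟩, e3⟩ := he
      refine Prod.ext e3 (Prod.ext (h2.trans h2'.symm) (Prod.ext e1 (Prod.ext e2 ?_)))
      exact h3.trans h3'.symm
  have hsum : (Z.card : ℝ) ≤ ∑ e : Fin n × Fin n, KK * D * (nn B Nr e.1 e.2 : ℝ) ^ 2 / t := by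
    rw [hfib]
    push_cast
    exact Finset.sum_le_sum hb2
  refine hsum.trans (le_of_eq ?_)
  rw [QQ]
  push_cast
  rw [Finset.mul_sum, Finset.sum_div]

theorem P4A_half {n D : ℕ} {B : FS n} {Nr : Fin n → Fin n → Prop}
    {F : Fin n → Fin n → Finset (VV n)} (hS : Sy B Nr F) (hD : Dg B D) (hD0 : 0 < D) (t : ℝ)
    (ht : 1 ≤ t) (C6 : ℝ) (hQ : (QQ B Nr : ℝ) ≤ C6 * n * (D : ℝ) ^ 3) (Z : Finset (P4A_T n))
    (h : ∀ z ∈ Z, P4A_b B Nr z ∧ ((z.2.2.2.2, z.2.1) ∈ B ∨ t < (nn B Nr z.2.1 z.2.2.2.2 : ℝ) ∨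
      (Sum.inl z.2.2.2.2 : VV n) ∈ F z.1 z.2.2.1 ∨ (Sum.inr z.2.2.2.1 : VV n) ∈ F z.1 z.2.2.1)) :
    (Z.card : ℝ) ≤ (KK + 6000 * KK + 6000) * (n * (D : ℝ) ^ 3) + KK * C6 * (n * (D : ℝ) ^ 4 / t) := by
  classical
  have ht0 : 0 < t := by linarith
  have hcov : Z ⊆ ((Z.filter (fun z => (z.2.2.2.2, z.2.1) ∈ B)) ∪
      (Z.filter (fun z => t < (nn B Nr z.2.1 z.2.2.2.2 : ℝ)))) ∪
      ((Z.filter (fun z => (Sum.inl z.2.2.2.2 : VV n) ∈ F z.1 z.2.2.1)) ∪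
      (Z.filter (fun z => (Sum.inr z.2.2.2.1 : VV n) ∈ F z.1 z.2.2.1))) := by
    intro z hz
    simp only [Finset.mem_union, Finset.mem_filter]
    rcases (h z hz).2 with h1 | h1 | h1 | h1
    · exact Or.inl (Or.inl ⟨hz, h1⟩)
    · exact Or.inl (Or.inr ⟨hz, h1⟩)
    · exact Or.inr (Or.inl ⟨hz, h1⟩)
    · exact Or.inr (Or.inr ⟨hz, h1⟩)
  have h1 := P4A_1 hD (Z.filter (fun z => (z.2.2.2.2, z.2.1) ∈ B))
    (fun z hz => ⟨(h z (Finset.mem_filter.1 hz).1).1, (Finset.mem_filter.1 hz).2⟩)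
  have h2 := P4A_2 hD t ht (Z.filter (fun z => t < (nn B Nr z.2.1 z.2.2.2.2 : ℝ)))
    (fun z hz => ⟨(h z (Finset.mem_filter.1 hz).1).1, (Finset.mem_filter.1 hz).2⟩)
  have h3 := P4A_3 hS hD (Z.filter (fun z => (Sum.inl z.2.2.2.2 : VV n) ∈ F z.1 z.2.2.1))
    (fun z hz => ⟨(h z (Finset.mem_filter.1 hz).1).1, (Finset.mem_filter.1 hz).2⟩)
  have h4 := P4A_4 hS hD (Z.filter (fun z => (Sum.inr z.2.2.2.1 : VV n) ∈ F z.1 z.2.2.1))
    (fun z hz => ⟨(h z (Finset.mem_filter.1 hz).1).1, (Finset.mem_filter.1 hz).2⟩)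
  have hc : Z.card ≤ ((Z.filter (fun z => (z.2.2.2.2, z.2.1) ∈ B)).card +
      (Z.filter (fun z => t < (nn B Nr z.2.1 z.2.2.2.2 : ℝ))).card) +
      ((Z.filter (fun z => (Sum.inl z.2.2.2.2 : VV n) ∈ F z.1 z.2.2.1)).card +
      (Z.filter (fun z => (Sum.inr z.2.2.2.1 : VV n) ∈ F z.1 z.2.2.1)).card) :=
    (Finset.card_le_card hcov).trans ((Finset.card_union_le _ _).trans
      (Nat.add_le_add (Finset.card_union_le _ _) (Finset.card_union_le _ _)))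
  have hcR : (Z.card : ℝ) ≤ (((Z.filter (fun z => (z.2.2.2.2, z.2.1) ∈ B)).card : ℝ) +
      ((Z.filter (fun z => t < (nn B Nr z.2.1 z.2.2.2.2 : ℝ))).card : ℝ)) +
      (((Z.filter (fun z => (Sum.inl z.2.2.2.2 : VV n) ∈ F z.1 z.2.2.1)).card : ℝ) +
      ((Z.filter (fun z => (Sum.inr z.2.2.2.1 : VV n) ∈ F z.1 z.2.2.1)).card : ℝ)) := by
    exact_mod_cast hc
  have h1R : ((Z.filter (fun z => (z.2.2.2.2, z.2.1) ∈ B)).card : ℝ) ≤ n * D * D * D * KK := by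
    exact_mod_cast h1
  have h3R : ((Z.filter (fun z => (Sum.inl z.2.2.2.2 : VV n) ∈ F z.1 z.2.2.1)).card : ℝ) ≤
      n * D * D * 6000 * KK := by exact_mod_cast h3
  have h4R : ((Z.filter (fun z => (Sum.inr z.2.2.2.1 : VV n) ∈ F z.1 z.2.2.1)).card : ℝ) ≤
      n * D * D * 6000 * D := by exact_mod_cast h4
  have hD1 : (1 : ℝ) ≤ D := by exact_mod_cast hD0
  have h2R : ((Z.filter (fun z => t < (nn B Nr z.2.1 z.2.2.2.2 : ℝ))).card : ℝ) ≤
      KK * C6 * (n * (D : ℝ) ^ 4 / t) := by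
    refine h2.trans ?_
    have e1 : (KK : ℝ) * D * QQ B Nr ≤ KK * D * (C6 * n * (D : ℝ) ^ 3) :=
      mul_le_mul_of_nonneg_left hQ (by positivity)
    calc (KK : ℝ) * D * QQ B Nr / t ≤ KK * D * (C6 * n * (D : ℝ) ^ 3) / t :=
          (div_le_div_iff_of_pos_right ht0).2 e1
      _ = KK * C6 * (n * (D : ℝ) ^ 4 / t) := by ring
  have h3' : (n : ℝ) * D * D * 6000 * KK ≤ 6000 * KK * (n * (D : ℝ) ^ 3) := by
    have e1 : (n : ℝ) * D * D * 6000 * KK * 1 ≤ (n : ℝ) * D * D * 6000 * KK * D :=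
      mul_le_mul_of_nonneg_left hD1 (by positivity)
    calc (n : ℝ) * D * D * 6000 * KK = (n : ℝ) * D * D * 6000 * KK * 1 := by ring
      _ ≤ (n : ℝ) * D * D * 6000 * KK * D := e1
      _ = 6000 * KK * (n * (D : ℝ) ^ 3) := by ring
  have h1' : (n : ℝ) * D * D * D * KK = KK * (n * (D : ℝ) ^ 3) := by ring
  have h4' : (n : ℝ) * D * D * 6000 * D = 6000 * (n * (D : ℝ) ^ 3) := by ring
  have hexp : ((KK : ℝ) + 6000 * KK + 6000) * (n * (D : ℝ) ^ 3) = KK * (n * (D : ℝ) ^ 3) +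
      6000 * KK * (n * (D : ℝ) ^ 3) + 6000 * (n * (D : ℝ) ^ 3) := by ring
  linarith

theorem P4A (hBAS : BAS_stmt) (hC6L : C6L_stmt) : P4A_stmt := by
  classical
  obtain ⟨C6, hC1, hC6⟩ := hC6L
  have hKK : (0 : ℝ) < (KK : ℝ) := by
    have : 0 < KK := by decide
    exact_mod_cast this
  refine ⟨2 * (KK + 6000 * KK + 6000 + KK * C6), by positivity, ?_⟩
  intro n D B Nr F hS hD hD0 t ht Z hZ
  have hQ := hC6 n D B Nr F hS hD hD0
  have ht0 : 0 < t := by linarith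
  have hbas := hBAS n B Nr F hS
  have hsym : ∀ x y, Lt B Nr x y → Lt B Nr y x := hbas.2.1
  let ρ : P4A_T n → P4A_T n := fun z => (z.2.2.2.2, z.2.2.2.1, z.2.2.1, z.2.1, z.1)
  have hρ : Function.Injective ρ := by
    rintro ⟨a, l, x, m, b⟩ ⟨a', l', x', m', b'⟩ e
    simp only [ρ, Prod.mk.injEq] at e
    obtain ⟨rfl, rfl, rfl, rfl, rfl⟩ := e
    rfl
  set Z1 := Z.filter (fun z => (z.2.2.2.2, z.2.1) ∈ B ∨ t < (nn B Nr z.2.1 z.2.2.2.2 : ℝ) ∨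
      (Sum.inl z.2.2.2.2 : VV n) ∈ F z.1 z.2.2.1 ∨ (Sum.inr z.2.2.2.1 : VV n) ∈ F z.1 z.2.2.1)
    with hZ1
  set Z2 := Z.filter (fun z => (z.1, z.2.2.2.1) ∈ B ∨ t < (nn B Nr z.2.2.2.1 z.1 : ℝ) ∨
      (Sum.inl z.1 : VV n) ∈ F z.2.2.2.2 z.2.2.1 ∨ (Sum.inr z.2.1 : VV n) ∈ F z.2.2.2.2 z.2.2.1)
    with hZ2
  have hb : ∀ z ∈ Z, P4A_b B Nr z := by
    intro z hz
    obtain ⟨b1, b2, b3, b4, b5, b6, -⟩ := hZ z hz
    exact ⟨b1, b2, b3, b4, b5, b6⟩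
  have hcov : Z ⊆ Z1 ∪ Z2 := by
    intro z hz
    by_contra hcon
    rw [Finset.mem_union, not_or, hZ1, hZ2, Finset.mem_filter, Finset.mem_filter] at hcon
    obtain ⟨n1, n2⟩ := hcon
    have n1' := not_and.1 n1 hz
    have n2' := not_and.1 n2 hz
    simp only [not_or, not_lt] at n1' n2'
    obtain ⟨b1, b2, b3, b4, b5, b6, b7⟩ := hZ z hz
    apply b7
    exact ⟨b5, b6, b1, b2, b3, b4, n1'.1, n2'.1, n1'.2.1, n2'.2.1, n1'.2.2.1, n1'.2.2.2,
      n2'.2.2.1, n2'.2.2.2⟩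
  have c1 := P4A_half hS hD hD0 t ht C6 hQ Z1
    (fun z hz => ⟨hb z (Finset.mem_filter.1 hz).1, (Finset.mem_filter.1 hz).2⟩)
  have c2 := P4A_half hS hD hD0 t ht C6 hQ (Z2.image ρ) (by
    intro w hw
    obtain ⟨z, hz, rfl⟩ := Finset.mem_image.1 hw
    obtain ⟨hz1, hz2⟩ := Finset.mem_filter.1 hz
    obtain ⟨b1, b2, b3, b4, b5, b6⟩ := hb z hz1
    exact ⟨⟨b4, b3, b2, b1, hsym _ _ b6, hsym _ _ b5⟩, hz2⟩)
  rw [Finset.card_image_of_injective _ hρ] at c2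
  have hc : (Z.card : ℝ) ≤ (Z1.card : ℝ) + (Z2.card : ℝ) := by
    have := (Finset.card_le_card hcov).trans (Finset.card_union_le _ _)
    exact_mod_cast this
  have p1 : 0 ≤ (n : ℝ) * (D : ℝ) ^ 3 := by positivity
  have p2 : 0 ≤ (n : ℝ) * (D : ℝ) ^ 4 / t := by positivity
  have q1 : (0 : ℝ) ≤ KK * C6 := by positivity
  have q2 : (0 : ℝ) ≤ KK + 6000 * KK + 6000 := by positivity
  nlinarith [mul_nonneg q1 p1, mul_nonneg q2 p2]

end Pool.Agent.XG
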