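import Pool.Agent.helper14.XG.Spec

set_option autoImplicit false

namespace Pool.Agent.XG

open Finset
open Pool.Agent.XT

theorem TGV_ex1 (p : P8) : ∃ p' : P8, p.1.1 = p'.1.1 ∧ p.1.2 ≠ p'.1.2 := by
  revert p
  decide

theorem TGV : TGV_stmt := by
  classical
  intro n B Nr F t t' x y s h hxy
  rw [TG, Finset.mem_filter] at h
  obtain ⟨-, hy, hx⟩ := h
  simp only at hy hx
  have fu : ∀ p : P8, (y p.1.1, s p) ∈ B := by
    intro p
    obtain ⟨p', h1, h2⟩ := TGV_ex1 p
    exact (hy p p' h1 h2).2.2.2.1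
  have fw : ∀ p : P8, (x p.1.2, s p) ∈ B := by
    intro p
    obtain ⟨p', h1, h2⟩ := TGV_ex1 p
    exact (hy p p' h1 h2).2.2.1
  have hne : ∀ i j, x j ≠ y i := by
    intro i j
    by_cases h22 : (i, j) = (2, 2)
    · obtain ⟨rfl, rfl⟩ := Prod.mk.inj h22
      exact hxy
    · obtain ⟨p', h1, h2⟩ := TGV_ex1 ⟨(i, j), h22⟩
      exact (hy ⟨(i, j), h22⟩ p' h1 h2).1.1
  have hyy : ∀ i i', y i = y i' → i = i' := by
    intro i i' e
    by_contra hne'
    have h1 : (i, (0 : Fin 3)) ≠ (2, 2) := fun h => by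
      have := (Prod.mk.inj h).2
      exact absurd this (by decide)
    have h2 : (i', (0 : Fin 3)) ≠ (2, 2) := fun h => by
      have := (Prod.mk.inj h).2
      exact absurd this (by decide)
    have h3 := hx ⟨(i, 0), h1⟩ ⟨(i', 0), h2⟩ rfl hne'
    apply h3.2.2.2.2.2.2.1
    show (y i', s _) ∈ B
    rw [← e]
    exact h3.2.2.1
  have hxx : ∀ i i', x i = x i' → i = i' := by
    intro i i' e
    by_contra hne'
    have h1 : ((0 : Fin 3), i) ≠ (2, 2) := fun h => by
      have := (Prod.mk.inj h).1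
      exact absurd this (by decide)
    have h2 : ((0 : Fin 3), i') ≠ (2, 2) := fun h => by
      have := (Prod.mk.inj h).1
      exact absurd this (by decide)
    have h3 := hy ⟨(0, i), h1⟩ ⟨(0, i'), h2⟩ rfl hne'
    apply h3.2.2.2.2.2.2.1
    show (x i', s _) ∈ B
    rw [← e]
    exact h3.2.2.1
  refine ⟨?_, ?_, fu, fw⟩
  · rintro (a | a) (b | b) e
    · exact congrArg Sum.inl (hyy a b e)
    · exact absurd e.symm (hne a b)
    · exact absurd e (hne b a)
    · exact congrArg Sum.inr (hxx a b e)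
  · intro p p' e
    by_contra hpp
    by_cases hi : p.1.1 = p'.1.1
    · have hj : p.1.2 ≠ p'.1.2 := fun h => hpp (Subtype.ext (Prod.ext hi h))
      apply (hy p p' hi hj).2.2.2.2.2.2.1
      rw [e]
      exact fw p'
    · by_cases hj : p.1.2 = p'.1.2
      · apply (hx p p' hj hi).2.2.2.2.2.2.1
        rw [e]
        exact fu p'
      · by_cases hi2 : p.1.1 = 2
        · have hi2' : p'.1.1 ≠ 2 := fun h => hi (hi2.trans h.symm)
          have hq : (p'.1.1, p.1.2) ≠ (2, 2) := fun h => hi2' (Prod.mk.inj h).1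
          apply (hy p' ⟨(p'.1.1, p.1.2), hq⟩ rfl (fun h => hj h.symm)).2.2.2.2.2.2.1
          rw [← e]
          exact fw p
        · have hq : (p.1.1, p'.1.2) ≠ (2, 2) := fun h => hi2 (Prod.mk.inj h).1
          apply (hy p ⟨(p.1.1, p'.1.2), hq⟩ rfl hj).2.2.2.2.2.2.1
          rw [e]
          exact fw p'

end Pool.Agent.XG
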